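import Pool.Agent.Helper28.WK.StA

/-!
# Module EvU of project WK: `u` commutes with the Hecke operators
-/

set_option autoImplicit false

namespace Pool.Agent.Helper16.WK

open Pool.Agent.Helper14.CV Pool.Agent.Helper28.WK

/-- the representatives `u std_P u⁻¹` -/
private def dU (l : ℕ) (P : Fin (l + 1)) : Matrix (Fin 2) (Fin 2) ℤ :=
  if (P : ℕ) < l then !![1, 2 * ((P : ℕ) : ℤ); 0, (l : ℤ)] else !![(l : ℤ), 0; 0, 1]

private theorem dU_lt (l : ℕ) (P : Fin (l + 1)) (h : (P : ℕ) < l) :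
    dU l P = !![1, 2 * ((P : ℕ) : ℤ); 0, (l : ℤ)] := if_pos h

private theorem dU_ge (l : ℕ) (P : Fin (l + 1)) (h : ¬ (P : ℕ) < l) :
    dU l P = !![(l : ℤ), 0; 0, 1] := if_neg h

private theorem hHkU (hHk : StHk) (R : Type) [AddCommGroup R] (n l : ℕ) (G : ℤ → ℤ → R)
    (hl : l.Prime) (h2 : l ≠ 2) (hG : Sym 0 n G) :
    EqC (Tl l 1 (act 2 0 0 1 G)) (act 2 0 0 1 (Tl l 1 G)) := by
  have hlz : Prime (l : ℤ) := Nat.prime_iff_prime_int.mp hl
  have hl1 : ¬ (l : ℤ) ∣ 1 := by
    intro h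
    exact hlz.not_isUnit (isUnit_of_dvd_one h)
  have hl2 : ¬ (l : ℤ) ∣ 2 := by
    intro h3
    have h4 : l ∣ 2 := by exact_mod_cast h3
    rcases (Nat.dvd_prime Nat.prime_two).1 h4 with h5 | h5
    · exact hl.one_lt.ne' h5
    · exact h2 h5
  have h1 := hHk R inferInstance n l G hl h2 hG (dU l) ?_ ?_ ?_
  · have h3 := h1.act (a := 2) (b := 0) (c := 0) (d := 1) (by simp)
    refine EqC.trans ?_ h3
    refine EqC.of_eq fun p q _ => ?_
    unfold Tl act
    beta_reduce
    rw [Fin.sum_univ_castSucc, Finset.sum_range, add_comm]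
    congr 1
    · refine Finset.sum_congr rfl fun i _ => ?_
      rw [dU_lt l _ (by simp)]
      simp only [Matrix.cons_val', Matrix.cons_val_zero, Matrix.cons_val_one, Matrix.of_apply,
        Matrix.cons_val_fin_one, Fin.val_castSucc]
      congr 1 <;> ring
    · rw [dU_ge l _ (by simp)]
      simp only [Matrix.cons_val', Matrix.cons_val_zero, Matrix.cons_val_one, Matrix.of_apply,
        Matrix.cons_val_fin_one]
      congr 1 <;> ring
  · intro P
    by_cases h : (P : ℕ) < l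
    · rw [dU_lt l P h, Matrix.det_fin_two_of]
      ring
    · rw [dU_ge l P h, Matrix.det_fin_two_of]
      ring
  · intro P
    by_cases h : (P : ℕ) < l
    · rw [dU_lt l P h]
      show (2 : ℤ) ^ n ∣ 0
      exact dvd_zero _
    · rw [dU_ge l P h]
      show (2 : ℤ) ^ n ∣ 0
      exact dvd_zero _
  · intro P P' hP hd
    by_cases h : (P : ℕ) < l
    · by_cases h' : (P' : ℕ) < l
      · rw [dU_lt l P h, dU_lt l P' h', Matrix.adjugate_fin_two_of] at hd
        have h3 := hd 0 1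
        simp only [Matrix.mul_apply, Fin.sum_univ_two, Matrix.cons_val', Matrix.cons_val_zero,
          Matrix.cons_val_one, Matrix.of_apply, Matrix.cons_val_fin_one] at h3
        have h4 : (l : ℤ) ∣ 2 * (((P : ℕ) : ℤ) - ((P' : ℕ) : ℤ)) := by
          convert h3 using 1
          ring
        rcases hlz.dvd_or_dvd h4 with h5 | h5
        · exact hl2 h5
        · have h6 : (((P : ℕ) : ℤ) - ((P' : ℕ) : ℤ)) = 0 := by
            apply Int.eq_zero_of_abs_lt_dvd h5
            rw [abs_lt]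
            omega
          apply hP
          apply Fin.ext
          omega
      · rw [dU_lt l P h, dU_ge l P' h', Matrix.adjugate_fin_two_of] at hd
        have h3 := hd 0 0
        simp only [Matrix.mul_apply, Fin.sum_univ_two, Matrix.cons_val', Matrix.cons_val_zero,
          Matrix.cons_val_one, Matrix.of_apply, Matrix.cons_val_fin_one] at h3
        apply hl1
        convert h3 using 1
        ring
    · by_cases h' : (P' : ℕ) < l
      · rw [dU_ge l P h, dU_lt l P' h', Matrix.adjugate_fin_two_of] at hd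
        have h3 := hd 1 1
        simp only [Matrix.mul_apply, Fin.sum_univ_two, Matrix.cons_val', Matrix.cons_val_zero,
          Matrix.cons_val_one, Matrix.of_apply, Matrix.cons_val_fin_one] at h3
        apply hl1
        convert h3 using 1
        ring
      · apply hP
        apply Fin.ext
        have e1 := P.isLt
        have e2 := P'.isLt
        omega

private theorem symU {R : Type} [AddCommGroup R] {n : ℕ} {G : ℤ → ℤ → R} (hG : Sym 0 n G) :
    Sym 0 (n + 1) (act 2 0 0 1 G) := by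
  refine hG.act (by norm_num) fun a b c d hd _ hc => ?_
  obtain ⟨e, he⟩ := hc
  refine ⟨a, 2 * b, 2 ^ n * e, d, ?_, ?_, dvd_mul_right _ _, ?_, ?_, ?_, ?_⟩
  · rw [← hd, he]; ring
  · rw [pow_zero]; exact one_dvd _
  · ring
  · ring
  · rw [he]; ring
  · ring

private theorem iter_comm {R : Type} [AddCommGroup R] {n l : ℕ} (hl : 0 < l) {a b c d : ℤ}
    (hS : ∀ G : ℤ → ℤ → R, Sym 0 n G → Sym 0 n (Tl l 1 G))
    (hC : ∀ G : ℤ → ℤ → R, Sym 0 n G → EqC (Tl l 1 (act a b c d G)) (act a b c d (Tl l 1 G)))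
    (i : ℕ) : ∀ G : ℤ → ℤ → R, Sym 0 n G →
      EqC ((Tl l 1)^[i] (act a b c d G)) (act a b c d ((Tl l 1)^[i] G)) ∧ Sym 0 n ((Tl l 1)^[i] G) := by
  induction i with
  | zero => intro G hG; exact ⟨EqC.refl _, hG⟩
  | succ i ih =>
    intro G hG
    rw [Function.iterate_succ_apply, Function.iterate_succ_apply]
    have h1 := ih (Tl l 1 G) (hS G hG)
    exact ⟨((hC G hG).Tl_iter hl 1 i).trans h1.1, h1.2⟩

private theorem key {R : Type} [AddCommGroup R] {n : ℕ} {a b c d : ℤ} (hHkS : StHkS)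
    (hC : ∀ l : ℕ, l.Prime → l ≠ 2 → ∀ G : ℤ → ℤ → R, Sym 0 n G →
      EqC (Tl l 1 (act a b c d G)) (act a b c d (Tl l 1 G)))
    (G : ℤ → ℤ → R) (hG : Sym 0 n G) (i j : ℕ) :
    ∃ H : ℤ → ℤ → R, Sym 0 n H ∧ H = (Tl 3 1)^[i] ((Tl 5 1)^[j] G) ∧
      EqC ((Tl 3 1)^[i] ((Tl 5 1)^[j] (act a b c d G))) (act a b c d H) := by
  have hS : ∀ l : ℕ, l.Prime → l ≠ 2 → ∀ G : ℤ → ℤ → R, Sym 0 n G → Sym 0 n (Tl l 1 G) :=
    fun l hp h2 G hG => hHkS R inferInstance n l G hp h2 hG
  have h5 := iter_comm (l := 5) (by norm_num) (hS 5 (by norm_num) (by norm_num))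
    (hC 5 (by norm_num) (by norm_num)) j G hG
  have h3 := iter_comm (l := 3) (by norm_num) (hS 3 (by norm_num) (by norm_num))
    (hC 3 (by norm_num) (by norm_num)) i _ h5.2
  exact ⟨_, h3.2, rfl, (h5.1.Tl_iter (by norm_num) 1 i).trans h3.1⟩

theorem hEvU : StEvU := by
  intro hHk hHkS R _ n G hG
  refine ⟨symU hG, fun i j => ?_⟩
  obtain ⟨H, hH, hHe, hE⟩ := key hHkS
    (fun l hp h2 G hG => hHkU hHk R n l G hp h2 hG) G hG i j
  have h1 := hE.diff (p := 1) (q := 0) (p' := 0) (q' := 1) (Or.inl one_ne_zero)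
    (Or.inr one_ne_zero)
  have h2 : H 2 0 = H 1 0 := by
    have := hH.1 2 1 0 (by norm_num) (Or.inl one_ne_zero)
    simpa using this
  unfold ev
  rw [h1, ← hHe]
  simp only [act, mul_zero, mul_one, zero_add, add_zero]
  rw [h2]

end Pool.Agent.Helper16.WK
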