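import Pool.Agent.Helper28.WK.StB

/-!
# Module Lb2 of project WK: the limit over the levels `(M, M + ν - 1)`
-/

set_option autoImplicit false

namespace Pool.Agent.Helper16.WK

open Pool.Agent.Helper14.CV Pool.Agent.Helper28.WK

private theorem eqC_map {R S : Type} [AddCommGroup R] [AddCommGroup S] (φ : R →+ S)
    {G H : ℤ → ℤ → R} (h : EqC G H) : EqC (fun x y => φ (G x y)) (fun x y => φ (H x y)) := by
  obtain ⟨c, hc⟩ := h
  exact ⟨φ c, fun p q hpq => by simp only [hc p q hpq, map_add]⟩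

private theorem symP_map {R S : Type} [AddCommGroup R] [AddCommGroup S] (φ : R →+ S) {p r s : ℕ}
    {G : ℤ → ℤ → R} (h : SymP p r s G) : SymP p r s (fun x y => φ (G x y)) :=
  ⟨fun k x y hk hxy => by simp only [h.1 k x y hk hxy],
    fun a b c d hd hb hc => eqC_map φ (h.2 a b c d hd hb hc)⟩

private theorem symP_mono {R : Type} [AddCommGroup R] {p r s r' s' : ℕ} {G : ℤ → ℤ → R}
    (h : SymP p r s G) (hr : r ≤ r') (hs : s ≤ s') : SymP p r' s' G :=
  ⟨h.1, fun a b c d hd hb hc =>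
    h.2 a b c d hd ((pow_dvd_pow _ hr).trans hb) ((pow_dvd_pow _ hs).trans hc)⟩

private theorem symP_sub {R : Type} [AddCommGroup R] {p r s : ℕ} {G H : ℤ → ℤ → R}
    (h : SymP p r s G) (h' : SymP p r s H) : SymP p r s (G - H) := by
  refine ⟨?_, fun a b c d hd hb hc => (h.2 a b c d hd hb hc).sub (h'.2 a b c d hd hb hc)⟩
  rw [sub_eq_add_neg]
  exact h.1.add h'.1.neg

private theorem symP_congr {R : Type} [AddCommGroup R] {p r s : ℕ} {G G' : ℤ → ℤ → R}
    (h : SymP p r s G) (hh : Homog G') (he : EqC G' G) : SymP p r s G' :=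
  ⟨hh, fun a b c d hd hb hc =>
    (he.act (by rw [hd]; exact one_ne_zero)).trans ((h.2 a b c d hd hb hc).trans he.symm)⟩

private theorem normalise {R : Type} [AddCommGroup R] {p r s : ℕ} (hp : (p : ℤ) ≠ 0)
    {ψ : ℤ → ℤ → R} (h : SymP p r s ψ) :
    ∃ ψ' : ℤ → ℤ → R, SymP p r s ψ' ∧ EqC (act p 0 0 1 ψ' - ψ') (act p 0 0 1 ψ - ψ) ∧
      ψ' 1 0 = 0 ∧ ψ' 0 0 = 0 := by
  have hne : ∀ x y : ℤ, (x ≠ 0 ∨ y ≠ 0) → ¬ (x = 0 ∧ y = 0) := by
    rintro x y (h1 | h1) ⟨h2, h3⟩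
    · exact h1 h2
    · exact h1 h3
  have he : EqC (fun x y : ℤ => if x = 0 ∧ y = 0 then (0 : R) else ψ x y - ψ 1 0) ψ := by
    refine ⟨-ψ 1 0, fun x y hxy => ?_⟩
    beta_reduce
    rw [if_neg (hne x y hxy)]
    abel
  refine ⟨fun x y : ℤ => if x = 0 ∧ y = 0 then (0 : R) else ψ x y - ψ 1 0,
    symP_congr h ?_ he, ?_, ?_, ?_⟩
  · intro k x y hk hxy
    beta_reduce
    have h1 : k * x ≠ 0 ∨ k * y ≠ 0 := by
      rcases hxy with h1 | h1
      · exact Or.inl (mul_ne_zero hk h1)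
      · exact Or.inr (mul_ne_zero hk h1)
    rw [if_neg (hne _ _ hxy), if_neg (hne _ _ h1), h.1 k x y hk hxy]
  · exact (he.act (by simpa using hp)).sub he
  · simp
  · simp

private theorem exists_lim (p : ℕ) [hp : Fact p.Prime] (z : ∀ M : ℕ, ZMod (p ^ M))
    (h : ∀ M, 2 ≤ M →
      ZMod.castHom (pow_dvd_pow p (Nat.le_succ M)) (ZMod (p ^ M)) (z (M + 1)) = z M) :
    ∃ a : ℤ_[p], ∀ M, 2 ≤ M → PadicInt.toZModPow M a = z M := by
  have hnz : ∀ M, NeZero (p ^ M) := fun M => ⟨pow_ne_zero _ hp.out.ne_zero⟩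
  have hdiv : ∀ M, 2 ≤ M → (p : ℤ) ^ M ∣ ((z (M + 1)).val : ℤ) - ((z M).val : ℤ) := by
    intro M hM
    have := hnz M
    have := hnz (M + 1)
    have h1 := h M hM
    have h2 : (((z (M + 1)).val : ℕ) : ZMod (p ^ M)) = (((z M).val : ℕ) : ZMod (p ^ M)) := by
      rw [ZMod.natCast_zmod_val (z M), ← h1, ZMod.castHom_apply, ← ZMod.natCast_val]
    rw [ZMod.natCast_eq_natCast_iff] at h2
    have h3 := Nat.modEq_iff_dvd.1 h2.symm
    rwa [Nat.cast_pow] at h3
  obtain ⟨v, hv⟩ : ∃ v : ℕ → ℤ, ∀ M, v M = ((z M).val : ℤ) := ⟨fun M => (z M).val, fun _ => rfl⟩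
  have hi : ∀ i, (p : ℤ) ^ i ∣ (fun j => v (max j 2)) (i + 1) - (fun j => v (max j 2)) i := by
    intro i
    beta_reduce
    by_cases hi : 2 ≤ i
    · rw [max_eq_left hi, max_eq_left (by omega), hv, hv]
      exact hdiv i hi
    · have h1 : max (i + 1) 2 = 2 := max_eq_right (by omega)
      have h2 : max i 2 = 2 := max_eq_right (by omega)
      rw [h1, h2, sub_self]
      exact dvd_zero _
  refine ⟨PadicInt.ofIntSeq _ (PadicInt.isCauSeq_padicNorm_of_pow_dvd_sub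
    (fun j => v (max j 2)) p hi), fun M hM => ?_⟩
  have h1 := PadicInt.toZModPow_ofIntSeq_of_pow_dvd_sub (fun j => v (max j 2)) p hi M
  refine h1.trans ?_
  have := hnz M
  rw [max_eq_left hM, hv, Int.cast_natCast, ZMod.natCast_zmod_val]

theorem hLb2 : StLb2 := by
  intro hLa hUI p hp hTA ν G hν hG hS hfr hst hev
  have hp2 : 2 ≤ p := hp.out.two_le
  have hpz : (p : ℤ) ≠ 0 := by exact_mod_cast hp.out.ne_zero
  have h1 : ∀ M : ℕ, ∃ ψ : ℤ → ℤ → ZMod (p ^ M), 2 ≤ M → (SymP p M (M + ν - 1) ψ ∧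
      EqC (act p 0 0 1 ψ - ψ) ((4 : ℤ) • redP M G) ∧ ψ 1 0 = 0 ∧ ψ 0 0 = 0) := by
    intro M
    by_cases hM : 2 ≤ M
    · have e1 : EqC (act 0 (-1) ((p : ℤ) ^ ν) 0 (redP M G)) (-(redP M G)) := by
        have h2 := eqC_map (PadicInt.toZModPow (p := p) M).toAddMonoidHom hfr
        have h3 : (fun x y : ℤ => (PadicInt.toZModPow (p := p) M).toAddMonoidHom ((-G) x y)) =
            -(redP M G) := by
          funext x y
          exact map_neg (PadicInt.toZModPow (p := p) M) (G x y)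
        rw [h3] at h2
        exact h2
      have e2 : EqC (act (-1) 0 0 1 (redP M G)) (redP M G) :=
        eqC_map (PadicInt.toZModPow (p := p) M).toAddMonoidHom hst
      obtain ⟨ψ, hψ, hE⟩ := hLa p hp hTA ν M (redP M G) hν hM (hS M hM) e1 e2 (hev M hM)
      obtain ⟨ψ', h3, h4, h5, h6⟩ := normalise hpz hψ
      exact ⟨ψ', fun _ => ⟨h3, h4.trans hE, h5, h6⟩⟩
    · exact ⟨0, fun h => absurd h hM⟩
  choose Ψ hΨ using h1
  have h3 : ∀ M, 2 ≤ M → ∀ x y : ℤ,
      ZMod.castHom (pow_dvd_pow p (Nat.le_succ M)) (ZMod (p ^ M)) (Ψ (M + 1) x y) = Ψ M x y := by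
    intro M hM
    obtain ⟨a1, a2, a3, a4⟩ := hΨ M hM
    obtain ⟨b1, b2, b3, b4⟩ := hΨ (M + 1) (by omega)
    obtain ⟨φ, hφ⟩ : ∃ φ : ZMod (p ^ (M + 1)) →+* ZMod (p ^ M),
      φ = ZMod.castHom (pow_dvd_pow p (Nat.le_succ M)) (ZMod (p ^ M)) := ⟨_, rfl⟩
    rw [← hφ]
    have hφr : ∀ x y, φ (redP (M + 1) G x y) = redP M G x y := by
      intro x y
      rw [hφ]
      exact RingHom.congr_fun
        (PadicInt.zmod_cast_comp_toZModPow (p := p) M (M + 1) (Nat.le_succ M)) (G x y)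
    have c1 : SymP p (M + 1) (M + ν) ((fun x y => φ (Ψ (M + 1) x y)) - Ψ M) := by
      refine symP_sub ?_ (symP_mono a1 (by omega) (by omega))
      have h4 := symP_map φ.toAddMonoidHom b1
      have e : M + 1 + ν - 1 = M + ν := by omega
      rw [e] at h4
      exact h4
    have c2 : EqC (act p 0 0 1 ((fun x y => φ (Ψ (M + 1) x y)) - Ψ M))
        ((fun x y => φ (Ψ (M + 1) x y)) - Ψ M) := by
      obtain ⟨k1, hk1⟩ := b2
      obtain ⟨k2, hk2⟩ := a2
      refine ⟨φ k1 - k2, fun x y hxy => ?_⟩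
      have e1 := hk1 x y hxy
      have e2 := hk2 x y hxy
      simp only [act, Pi.sub_apply, Pi.smul_apply] at e1 e2 ⊢
      have e3 := congrArg φ e1
      rw [map_sub, map_add, map_zsmul, hφr] at e3
      linear_combination e3 - e2
    obtain ⟨c, hc⟩ := hUI p hp2 (ZMod (p ^ M)) inferInstance (M + 1) (M + ν) _ c1 c2
    have hc0 : c = 0 := by
      have h4 := hc 1 0 (Or.inl one_ne_zero)
      simp only [Pi.sub_apply, Pi.zero_apply, a3, b3, map_zero, sub_zero, zero_add] at h4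
      exact h4.symm
    intro x y
    by_cases hxy : x ≠ 0 ∨ y ≠ 0
    · have h4 := hc x y hxy
      rw [hc0] at h4
      simp only [Pi.sub_apply, Pi.zero_apply, zero_add] at h4
      exact sub_eq_zero.1 h4
    · push Not at hxy
      obtain ⟨rfl, rfl⟩ := hxy
      rw [a4, b4, map_zero]
  have h4 : ∀ x y : ℤ, ∃ a : ℤ_[p], ∀ M, 2 ≤ M → PadicInt.toZModPow M a = Ψ M x y :=
    fun x y => exists_lim p (fun M => Ψ M x y) fun M hM => h3 M hM x y
  choose ψ hψ using h4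
  have hred : ∀ M, 2 ≤ M → redP M ψ = Ψ M := fun M hM => by
    funext x y
    exact hψ x y M hM
  have hext : ∀ a b : ℤ_[p],
      (∀ M, 2 ≤ M → PadicInt.toZModPow M a = PadicInt.toZModPow M b) → a = b := by
    intro a b h
    apply PadicInt.ext_of_toZModPow.1
    intro n
    by_cases hn : 2 ≤ n
    · exact h n hn
    · rw [← PadicInt.cast_toZModPow n 2 (by omega) a, ← PadicInt.cast_toZModPow n 2 (by omega) b,
        h 2 le_rfl]
  refine ⟨ψ, ?_, fun M hM => by rw [hred M hM]; exact (hΨ M hM).1, ?_⟩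
  · intro k x y hk hxy
    apply hext
    intro M hM
    rw [hψ _ _ M hM, hψ _ _ M hM]
    exact (hΨ M hM).1.1 k x y hk hxy
  · refine ⟨-((4 : ℤ) • G 1 0), fun x y hxy => ?_⟩
    apply hext
    intro M hM
    obtain ⟨a1, ⟨c, hc⟩, a3, a4⟩ := hΨ M hM
    have e1 := hc x y hxy
    have e2 := hc 1 0 (Or.inl one_ne_zero)
    have e3 : Ψ M (p * 1) (p * 0) = Ψ M 1 0 := a1.1 p 1 0 hpz (Or.inl one_ne_zero)
    rw [mul_one, mul_zero, a3] at e3
    simp only [act, Pi.sub_apply, Pi.smul_apply, mul_one, mul_zero, add_zero] at e2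
    rw [e3, a3, sub_zero] at e2
    simp only [act, Pi.sub_apply, Pi.smul_apply] at e1 ⊢
    rw [map_sub, map_add, map_zsmul, map_neg, map_zsmul, hψ _ _ M hM, hψ _ _ M hM, e1]
    simp only [redP] at e2 ⊢
    linear_combination -e2

end Pool.Agent.Helper16.WK
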